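import Pool.Agent.Helper26.TK.Stmts
import Pool.Agent.Helper26.TK.Space

/-!
Packet SH: branches outside the range are shrinking.
-/

namespace Pool.Agent.Helper72.TK

open Finset Classical Pool.Agent.Helper26.TK

lemma node_length (x : ℕ → Bool) (n : ℕ) : (node x n).length = n := by
  simp [node]

lemma node_inj (x : ℕ → Bool) : Function.Injective (node x) := by
  intro a b h
  have := congrArg List.length h
  rwa [node_length, node_length] at this

section

variable {f : (ℕ → ℕ) → (ℕ → Bool)} {x : ℕ → Bool} {X : Type} [NormedAddCommGroup X]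
  [NormedSpace ℝ X]

/-- Domination. -/
lemma norm_dom (hG : Good (Phi f)) (H : NS (Phi f) X) (u v : X)
    (h : ∀ t, H.co t u = 0 ∨ H.co t u = H.co t v) : ‖u‖ ≤ ‖v‖ := by
  refine H.norm_le u ‖v‖ (norm_nonneg _) ?_
  intro φ hφ
  have hχ : φ.filter (fun t => H.co t u ≠ 0) ∈ Phi f := by
    refine hG.dom φ hφ _ fun t => ?_
    rw [Finsupp.filter_apply]
    split_ifs
    · right; rfl
    · left; rfl
  have h1 := H.le_norm _ hχ v
  refine le_trans (le_of_eq ?_) h1
  congr 1
  rw [Finsupp.support_filter]
  rw [Finset.sum_filter]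
  refine Finset.sum_congr rfl fun t _ => ?_
  rw [Finsupp.filter_apply]
  split_ifs with h2
  · rcases h t with h3 | h3
    · exact absurd h3 h2
    · rw [h3]
  · have h3 : H.co t u = 0 := by
      by_contra h4; exact h2 h4
    rw [h3, mul_zero]

/-- (B1). -/
lemma b1 (hD : StmtD) (H : NS (Phi f) X) {χ : ℕ → ℝ} (hχ : Dx f x χ) (v : X) (T : Finset ℕ) :
    ∑ n ∈ T, χ n * |H.co (node x n) v| ≤ ‖v‖ := by
  obtain ⟨hG, hbr, _, _⟩ := hD f
  obtain ⟨φ, hφ, hφn, _⟩ := hbr x χ hχ
  let c : Node → ℝ := fun t => if 0 ≤ H.co t v then 1 else -1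
  have hc : ∀ t, c t * H.co t v = |H.co t v| := by
    intro t
    simp only [c]
    split_ifs with h
    · rw [abs_of_nonneg h, one_mul]
    · rw [abs_of_neg (not_le.mp h)]; ring
  have hc1 : ∀ t, |c t| = 1 := by
    intro t
    simp only [c]
    split_ifs <;> simp
  let ρ : Node →₀ ℝ := Finsupp.onFinset (T.image (node x))
    (fun t => if t ∈ T.image (node x) then c t * φ t else 0) (by
      intro t ht
      by_contra h
      exact ht (if_neg h))
  have hρ : ρ ∈ Phi f := by
    refine hG.dom φ hφ ρ fun t => ?_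
    simp only [ρ, Finsupp.onFinset_apply]
    split_ifs
    · right; rw [abs_mul, hc1, one_mul]
    · left; rfl
  have h1 := H.le_norm ρ hρ v
  have h2 : ∑ t ∈ ρ.support, ρ t * H.co t v = ∑ n ∈ T, χ n * |H.co (node x n) v| := by
    have h3 : ∑ t ∈ ρ.support, ρ t * H.co t v = ∑ t ∈ T.image (node x), ρ t * H.co t v := by
      refine Finset.sum_subset (Finsupp.support_onFinset_subset) ?_
      intro t _ ht
      rw [Finsupp.notMem_support_iff.mp ht, zero_mul]
    rw [h3, Finset.sum_image (fun a _ b _ h => node_inj x h)]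
    refine Finset.sum_congr rfl fun n hn => ?_
    simp only [ρ, Finsupp.onFinset_apply]
    rw [if_pos (Finset.mem_image_of_mem _ hn), hφn, mul_comm (c _), mul_assoc, hc]
  rw [← h2]
  exact le_trans (le_abs_self _) h1

/-- (B2). -/
lemma b2 (H : NS (Phi f) X) (v : X) (hv : ∀ t, H.co t v ≠ 0 → t = node x t.length) (r : ℝ)
    (hr : 0 ≤ r)
    (h : ∀ χ, Dx f x χ → ∀ N : ℕ, ∑ n ∈ Finset.range N, χ n * |H.co (node x n) v| ≤ r) :
    ‖v‖ ≤ r := by
  refine H.norm_le v r hr ?_
  intro φ hφ
  have h1 := h _ (hφ x) (φ.support.sup List.length + 1)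
  refine le_trans ?_ h1
  refine le_trans (Finset.abs_sum_le_sum_abs _ _) ?_
  have h2 : ∑ t ∈ φ.support, |φ t * H.co t v|
      = ∑ t ∈ φ.support.filter (fun t => H.co t v ≠ 0), |φ t * H.co t v| := by
    rw [Finset.sum_filter]
    refine Finset.sum_congr rfl fun t _ => ?_
    split_ifs with h3
    · rfl
    · have : H.co t v = 0 := by by_contra h4; exact h3 h4
      rw [this, mul_zero, abs_zero]
  rw [h2]
  have h3 : ∑ n ∈ Finset.range (φ.support.sup List.length + 1),
      |φ (node x n)| * |H.co (node x n) v|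
      = ∑ t ∈ (Finset.range (φ.support.sup List.length + 1)).image (node x),
        |φ t * H.co t v| := by
    rw [Finset.sum_image (fun a _ b _ h => node_inj x h)]
    refine Finset.sum_congr rfl fun n _ => ?_
    rw [abs_mul]
  rw [h3]
  refine Finset.sum_le_sum_of_subset_of_nonneg ?_ (fun t _ _ => abs_nonneg _)
  intro t ht
  rw [Finset.mem_filter] at ht
  rw [Finset.mem_image]
  refine ⟨t.length, ?_, (hv t ht.2).symm⟩
  rw [Finset.mem_range]
  have : t.length ≤ φ.support.sup List.length := Finset.le_sup (f := List.length) ht.1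
  omega

/-- Nonnegativity of the functionals. -/
lemma Dx_nonneg {χ : ℕ → ℝ} (h : Dx f x χ) : ∀ n, 0 ≤ χ n := by
  induction h with
  | zero => intro n; exact le_refl _
  | single m => intro n; positivity
  | step k a ψ ha hk hψ hs ih =>
    intro n
    have : 0 ≤ ∑ i ∈ Finset.range k, ψ i n :=
      Finset.sum_nonneg fun i hi => ih i (Finset.mem_range.mp hi) n
    positivity

/-- The key estimate for averages of successive vectors. -/
lemma key (hD : StmtD) (H : NS (Phi f) X) (r : ℕ → ℕ) (hr : StrictMono r) (g : ℕ → X)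
    (hg1 : ∀ i, ‖g i‖ ≤ 1)
    (hg2 : ∀ i t, H.co t (g i) ≠ 0 → r i ≤ t.length ∧ t.length < r (i + 1) ∧ t = node x t.length)
    (s : Finset ℕ) (lam : ℕ → ℝ) (hlam : ∀ i, 0 ≤ lam i) (hsum : ∑ i ∈ s, lam i = 1)
    (hQ : ∀ (k : ℕ) (a : ℕ → ℕ), StrictMono a → Adm f x k a →
      ∑ i ∈ s.filter (fun i => ∃ j < k, r i ≤ a j ∧ a j < r (i + 1)), lam i ≤ 1 / 4) :
    ‖∑ i ∈ s, lam i • g i‖ ≤ 3 / 4 := by
  refine b2 (x := x) H _ ?_ _ (by norm_num) ?_
  · intro t ht
    by_contra hne
    apply ht
    rw [map_sum]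
    refine Finset.sum_eq_zero fun i _ => ?_
    rw [map_smul, smul_eq_mul]
    have : H.co t (g i) = 0 := by
      by_contra h
      exact hne (hg2 i t h).2.2
    rw [this, mul_zero]
  · intro χ hχ N
    -- the mass of block i
    have hm : ∀ χ' : ℕ → ℝ, (∀ n, 0 ≤ χ' n) → ∑ n ∈ Finset.range N, χ' n *
        |H.co (node x n) (∑ i ∈ s, lam i • g i)| ≤
        ∑ i ∈ s, lam i * ∑ n ∈ Finset.range N, χ' n * |H.co (node x n) (g i)| := by
      intro χ' hχ'
      calc ∑ n ∈ Finset.range N, χ' n * |H.co (node x n) (∑ i ∈ s, lam i • g i)|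
          ≤ ∑ n ∈ Finset.range N, χ' n * ∑ i ∈ s, lam i * |H.co (node x n) (g i)| := by
            refine Finset.sum_le_sum fun n _ => mul_le_mul_of_nonneg_left ?_ (hχ' n)
            rw [map_sum]
            refine le_trans (Finset.abs_sum_le_sum_abs _ _) ?_
            refine Finset.sum_le_sum fun i _ => ?_
            rw [map_smul, smul_eq_mul, abs_mul, abs_of_nonneg (hlam i)]
        _ = ∑ i ∈ s, lam i * ∑ n ∈ Finset.range N, χ' n * |H.co (node x n) (g i)| := by
            simp_rw [Finset.mul_sum]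
            rw [Finset.sum_comm]
            refine Finset.sum_congr rfl fun i _ => Finset.sum_congr rfl fun n _ => ?_
            ring
    have hm1 : ∀ χ', Dx f x χ' → ∀ i, ∑ n ∈ Finset.range N, χ' n * |H.co (node x n) (g i)| ≤ 1 :=
      fun χ' hχ' i => le_trans (b1 hD H hχ' (g i) _) (hg1 i)
    refine le_trans (hm χ (Dx_nonneg hχ)) ?_
    have hzero : ∀ i n, ¬ (r i ≤ n ∧ n < r (i + 1)) → H.co (node x n) (g i) = 0 := by
      intro i n hn
      by_contra h
      have := hg2 i _ h
      rw [node_length] at this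
      exact hn ⟨this.1, this.2.1⟩
    have hχ0 := hχ
    cases hχ with
    | zero => simp; norm_num
    | single m =>
      have h1 := hQ 1 (fun j => m + j) (fun a b h => by simpa using h)
        (Or.inr ⟨fun _ => 0, fun _ _ => Nat.zero_le _, fun i hi => by omega⟩)
      refine le_trans ?_ (le_trans h1 (by norm_num))
      rw [Finset.sum_filter]
      refine Finset.sum_le_sum fun i _ => ?_
      split_ifs with h2
      · exact mul_le_of_le_one_right (hlam i) (hm1 _ hχ0 i)
      · refine le_of_eq ?_
        have : ∑ n ∈ Finset.range N, (if n = m then (1 : ℝ) else 0) *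
            |H.co (node x n) (g i)| = 0 := by
          refine Finset.sum_eq_zero fun n _ => ?_
          split_ifs with h3
          · subst h3
            rw [hzero i n (fun h4 => h2 ⟨0, by norm_num, by simpa using h4⟩), abs_zero, mul_zero]
          · rw [zero_mul]
        rw [this, mul_zero]
    | step k a ψ ha hk hψ hs =>
      have h1 := hQ k a ha hk
      have h2 : ∀ i, lam i * ∑ n ∈ Finset.range N, ((1 / 2) * ∑ j ∈ Finset.range k, ψ j n) *
          |H.co (node x n) (g i)| ≤
          1 / 2 * lam i + if (∃ j < k, r i ≤ a j ∧ a j < r (i + 1)) then lam i else 0 := by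
        intro i
        split_ifs with hh
        · have := mul_le_of_le_one_right (hlam i) (hm1 _ hχ0 i)
          have h0 := hlam i
          linarith
        · rw [add_zero, mul_comm (1 / 2 : ℝ)]
          refine mul_le_mul_of_nonneg_left ?_ (hlam i)
          -- at most one j is active on the block
          have e : ∑ n ∈ Finset.range N, ((1 / 2) * ∑ j ∈ Finset.range k, ψ j n) *
              |H.co (node x n) (g i)| = 1 / 2 * ∑ j ∈ Finset.range k,
                ∑ n ∈ Finset.range N, ψ j n * |H.co (node x n) (g i)| := by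
            rw [Finset.sum_comm, Finset.mul_sum]
            refine Finset.sum_congr rfl fun n _ => ?_
            rw [mul_assoc, Finset.sum_mul]
          rw [e]
          have h3 : ∑ j ∈ Finset.range k,
              ∑ n ∈ Finset.range N, ψ j n * |H.co (node x n) (g i)| ≤ 1 := by
            by_cases hex : ∃ j < k, ∑ n ∈ Finset.range N, ψ j n * |H.co (node x n) (g i)| ≠ 0
            · obtain ⟨j, hj, hjne⟩ := hex
              rw [Finset.sum_eq_single_of_mem j (Finset.mem_range.mpr hj)]
              · exact hm1 _ (hψ j hj) i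
              · intro j' hj' hne
                rw [Finset.mem_range] at hj'
                by_contra hj'ne
                -- witnesses
                have wit : ∀ l, ∑ n ∈ Finset.range N, ψ l n * |H.co (node x n) (g i)| ≠ 0 →
                    ∃ n, ψ l n ≠ 0 ∧ r i ≤ n ∧ n < r (i + 1) := by
                  intro l hl
                  obtain ⟨n, _, hn⟩ := Finset.exists_ne_zero_of_sum_ne_zero hl
                  refine ⟨n, left_ne_zero_of_mul hn, ?_⟩
                  by_contra hc
                  rw [hzero i n hc] at hn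
                  simp at hn
                have main : ∀ p q, p < q → p < k → q < k →
                    (∃ n, ψ p n ≠ 0 ∧ r i ≤ n ∧ n < r (i + 1)) →
                    (∃ n, ψ q n ≠ 0 ∧ r i ≤ n ∧ n < r (i + 1)) → False := by
                  rintro p q hpq hp hq ⟨n, hn1, hn2, hn3⟩ ⟨n', hn1', hn2', hn3'⟩
                  have hA := hs p hp n hn1
                  have hB := hs q hq n' hn1'
                  have hA2 := hA.2 (by omega)
                  have hmono : a (p + 1) ≤ a q := ha.monotone (by omega)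
                  have hnh : ∀ l < k, ¬ (r i ≤ a l ∧ a l < r (i + 1)) :=
                    fun l hl h => hh ⟨l, hl, h⟩
                  have := hnh q hq
                  have := hnh (p + 1) (by omega)
                  omega
                rcases lt_or_gt_of_ne hne with h | h
                · exact main j' j h hj' hj (wit _ hj'ne) (wit _ hjne)
                · exact main j j' h hj hj' (wit _ hjne) (wit _ hj'ne)
            · push Not at hex
              rw [Finset.sum_eq_zero fun j hj => hex j (Finset.mem_range.mp hj)]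
              norm_num
          linarith
      calc ∑ i ∈ s, lam i * ∑ n ∈ Finset.range N, ((1 / 2) * ∑ j ∈ Finset.range k, ψ j n) *
            |H.co (node x n) (g i)|
          ≤ ∑ i ∈ s, (1 / 2 * lam i +
              if (∃ j < k, r i ≤ a j ∧ a j < r (i + 1)) then lam i else 0) :=
            Finset.sum_le_sum fun i _ => h2 i
        _ ≤ 3 / 4 := by
            rw [Finset.sum_add_distrib, ← Finset.mul_sum, hsum, ← Finset.sum_filter]
            linarith

theorem stmtSH (hQ : StmtQ) (_hP : StmtP) (hN : StmtN) (hD : StmtD) : StmtSH := by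
  intro f hf x hx X _ _ _ H ψ η hη
  obtain ⟨hG, hbr, _, _⟩ := id (hD f)
  -- finitely supported vectors of level at least N
  let V : ℕ → X → Prop := fun N v => ‖v‖ ≤ 1 ∧
    (∀ t : Node, H.co t v ≠ 0 → N ≤ t.length ∧ t = node x t.length) ∧
    ∃ M, ∀ t : Node, H.co t v ≠ 0 → t.length < M
  have hV0 : ∀ N, V N 0 := by
    intro N
    refine ⟨by simp, ?_, 0, ?_⟩
    · intro t ht; simp at ht
    · intro t ht; simp at ht
  let Θ : ℕ → ℝ := fun N => sSup {c | ∃ v, V N v ∧ ψ v = c}
  have hbdd : ∀ N, BddAbove {c | ∃ v, V N v ∧ ψ v = c} := by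
    intro N
    refine ⟨‖ψ‖, ?_⟩
    rintro c ⟨v, hv, rfl⟩
    refine le_trans (le_abs_self _) ?_
    refine le_trans (ψ.le_opNorm v) ?_
    exact mul_le_of_le_one_right (norm_nonneg _) hv.1
  have hne : ∀ N, {c | ∃ v, V N v ∧ ψ v = c}.Nonempty := fun N => ⟨ψ 0, 0, hV0 N, rfl⟩
  have hle : ∀ N v, V N v → ψ v ≤ Θ N := fun N v hv => le_csSup (hbdd N) ⟨v, hv, rfl⟩
  have hΘ0 : ∀ N, 0 ≤ Θ N := by
    intro N
    have := hle N 0 (hV0 N)
    simpa using this
  have hanti : Antitone Θ := by
    intro M N hMN
    refine csSup_le_csSup (hbdd M) (hne N) ?_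
    rintro c ⟨v, hv, rfl⟩
    refine ⟨v, ⟨hv.1, fun t ht => ⟨?_, (hv.2.1 t ht).2⟩, hv.2.2⟩, rfl⟩
    exact le_trans hMN (hv.2.1 t ht).1
  -- reduction to finite supports
  have hred : ∀ N (v : X), ‖v‖ ≤ 1 →
      (∀ t : Node, H.co t v ≠ 0 → N ≤ t.length ∧ t = node x t.length) → ψ v ≤ Θ N := by
    intro N v hv hsupp
    refine le_of_forall_pos_le_add fun ε hε => ?_
    obtain ⟨S, hS⟩ := H.dense v (ε / (‖ψ‖ + 1)) (by positivity)
    set u := ∑ t ∈ S, H.co t v • H.e t with hu
    have hcu : ∀ t, H.co t u = if t ∈ S then H.co t v else 0 := by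
      intro t
      rw [hu, map_sum]
      simp_rw [map_smul, H.co_e, smul_eq_mul, mul_ite, mul_one, mul_zero]
      rw [Finset.sum_ite_eq]
    have hVu : V N u := by
      refine ⟨le_trans (norm_dom hG H u v fun t => ?_) hv, fun t ht => hsupp t ?_,
        S.sup List.length + 1, fun t ht => ?_⟩
      · rw [hcu]; split_ifs
        · right; rfl
        · left; rfl
      · rw [hcu] at ht
        split_ifs at ht
        · exact ht
        · exact absurd rfl ht
      · rw [hcu] at ht
        split_ifs at ht with h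
        · have : t.length ≤ S.sup List.length := Finset.le_sup (f := List.length) h
          omega
        · exact absurd rfl ht
    have h1 : ψ v = ψ u + ψ (v - u) := by rw [map_sub]; ring
    have h2 : ψ (v - u) ≤ ε := by
      refine le_trans (le_abs_self _) (le_trans (ψ.le_opNorm _) ?_)
      calc ‖ψ‖ * ‖v - u‖ ≤ (‖ψ‖ + 1) * (ε / (‖ψ‖ + 1)) := by
            refine mul_le_mul (by linarith) hS (norm_nonneg _) (by positivity)
        _ = ε := by field_simp
    have := hle N u hVu
    linarith
  by_contra hcon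
  push Not at hcon
  -- Θ is bounded below
  have hη' : ∀ N, η ≤ Θ N := by
    intro N
    obtain ⟨v, hv, hs, hψ⟩ := hcon N
    rcases lt_abs.mp hψ with h | h
    · exact le_trans h.le (hred N v hv hs)
    · have := hred N (-v) (by rwa [norm_neg]) (fun t ht => hs t (by
        intro h0; apply ht; rw [map_neg, h0, neg_zero]))
      rw [map_neg] at this
      linarith
  set θ := ⨅ N, Θ N with hθ
  have hbb : BddBelow (Set.range Θ) := ⟨0, by rintro _ ⟨N, rfl⟩; exact hΘ0 N⟩
  have hθη : η ≤ θ := le_ciInf hη'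
  have hθpos : 0 < θ := lt_of_lt_of_le hη hθη
  obtain ⟨N0, hN0⟩ : ∃ N0, Θ N0 < 1.1 * θ := by
    refine exists_lt_of_ciInf_lt ?_
    rw [← hθ]; nlinarith
  have hθle : ∀ N, θ ≤ Θ N := fun N => ciInf_le hbb N
  -- the successive vectors
  have hch : ∀ N, ∃ (g : X) (M : ℕ), N < M ∧ ‖g‖ ≤ 1 ∧ 0.9 * θ < ψ g ∧
      ∀ t : Node, H.co t g ≠ 0 → N ≤ t.length ∧ t.length < M ∧ t = node x t.length := by
    intro N
    have : 0.9 * θ < Θ N := by
      have := hθle N
      nlinarith
    obtain ⟨c, ⟨v, hv, rfl⟩, hc⟩ := exists_lt_of_lt_csSup (hne N) this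
    obtain ⟨M, hM⟩ := hv.2.2
    refine ⟨v, max M (N + 1), by omega, hv.1, hc, fun t ht => ?_⟩
    have h1 := hv.2.1 t ht
    have h2 := hM t ht
    exact ⟨h1.1, by omega, h1.2⟩
  choose g M hM1 hg1 hgψ hgs using hch
  let r : ℕ → ℕ := fun i => Nat.rec N0 (fun _ u => M u) i
  have hrs : ∀ i, r (i + 1) = M (r i) := fun i => rfl
  have hr : StrictMono r := strictMono_nat_of_lt_succ fun i => by rw [hrs]; exact hM1 _
  obtain ⟨s, lam, _, hlam, hlam0, hsum, hmass⟩ := hQ (fun k a => Adm f x k a) (by
      intro k a b hab h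
      rcases h with h | ⟨y, h1, h2⟩
      · rcases Nat.eq_zero_or_pos k with hk | hk
        · subst hk; left; exact Nat.zero_le _
        · left; rw [← hab 0 hk]; exact h
      · exact Or.inr ⟨y, fun i hi => by rw [← hab i hi]; exact h1 i hi, h2⟩)
    (by
      intro k a h
      rcases h with h | ⟨y, h1, h2⟩
      · left; omega
      · exact Or.inr ⟨y, fun i hi => h1 i (by omega), fun i hi => h2 i (by omega)⟩)
    (hN f hf x hx) r hr (1 / 4) (by norm_num) 0
  have hw := key (x := x) hD H r hr (fun i => g (r i)) (fun i => hg1 _)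
    (fun i t ht => by rw [hrs]; exact hgs _ t ht) s lam hlam hsum hmass
  set w := ∑ i ∈ s, lam i • g (r i) with hwdef
  have hψw : 0.9 * θ ≤ ψ w := by
    rw [hwdef, map_sum]
    calc 0.9 * θ = ∑ i ∈ s, lam i * (0.9 * θ) := by rw [← Finset.sum_mul, hsum, one_mul]
      _ ≤ ∑ i ∈ s, ψ (lam i • g (r i)) := by
          refine Finset.sum_le_sum fun i _ => ?_
          rw [map_smul, smul_eq_mul]
          exact mul_le_mul_of_nonneg_left (hgψ _).le (hlam i)
  have hcow : ∀ t, H.co t w ≠ 0 → ∃ i ∈ s, H.co t (g (r i)) ≠ 0 := by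
    intro t ht
    rw [hwdef, map_sum] at ht
    obtain ⟨i, hi, hne⟩ := Finset.exists_ne_zero_of_sum_ne_zero ht
    refine ⟨i, hi, ?_⟩
    intro h0
    apply hne
    rw [map_smul, h0, smul_zero]
  have hVw : V N0 ((4 / 3 : ℝ) • w) := by
    refine ⟨?_, ?_, r (s.sup id + 1), ?_⟩
    · rw [norm_smul]
      rw [Real.norm_of_nonneg (by norm_num)]
      linarith
    · intro t ht
      rw [map_smul] at ht
      obtain ⟨i, hi, hne⟩ := hcow t (right_ne_zero_of_smul ht)
      have := hgs _ t hne
      exact ⟨le_trans (hr.monotone (Nat.zero_le i)) this.1, this.2.2⟩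
    · intro t ht
      rw [map_smul] at ht
      obtain ⟨i, hi, hne⟩ := hcow t (right_ne_zero_of_smul ht)
      have h1 := hgs _ t hne
      rw [← hrs] at h1
      have h2 : i ≤ s.sup id := Finset.le_sup (f := id) hi
      exact lt_of_lt_of_le h1.2.1 (hr.monotone (show i + 1 ≤ s.sup id + 1 by omega))
  have := hle N0 _ hVw
  rw [map_smul, smul_eq_mul] at this
  nlinarith

end

end Pool.Agent.Helper72.TK
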