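import Pool.Agent.Helper26.TK.Stmts

/-!
Packet Q: averages on well-founded admissible families.
-/

namespace Pool.Agent.Helper72.TK

open Finset Classical Pool.Agent.Helper26.TK

/-- Convex combinations of indices at least `i0`. -/
def Conv (i0 : ℕ) (s : Finset ℕ) (lam : ℕ → ℝ) : Prop :=
  (∀ i ∈ s, i0 ≤ i) ∧ (∀ i, 0 ≤ lam i) ∧ (∀ i, i ∉ s → lam i = 0) ∧ ∑ i ∈ s, lam i = 1

/-- The block `[r i, r (i+1))` contains an element of `B`. -/
def hit (r : ℕ → ℕ) (B : Set ℕ) (i : ℕ) : Prop := ∃ u ∈ B, r i ≤ u ∧ u < r (i + 1)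

/-- Good families of sets. -/
def Gd (F : Set (Set ℕ)) : Prop :=
  ∀ r : ℕ → ℕ, StrictMono r → ∀ η : ℝ, 0 < η → ∀ i0 : ℕ,
    ∃ (s : Finset ℕ) (lam : ℕ → ℝ), Conv i0 s lam ∧
      ∀ B ∈ F, ∑ i ∈ s.filter (hit r B), lam i ≤ η

lemma mix (i0 : ℕ) (J : Finset ℕ) (κ : ℕ → ℝ) (hκ : ∀ j, 0 ≤ κ j) (hsum : ∑ j ∈ J, κ j = 1)
    (S : ℕ → Finset ℕ) (L : ℕ → ℕ → ℝ) (hL : ∀ j, Conv i0 (S j) (L j)) :
    ∃ (s : Finset ℕ) (lam : ℕ → ℝ), Conv i0 s lam ∧ ∀ P : ℕ → Prop,
      ∑ i ∈ s.filter P, lam i = ∑ j ∈ J, κ j * ∑ i ∈ (S j).filter P, L j i := by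
  have key : ∀ P : ℕ → Prop,
      ∑ i ∈ (J.biUnion S).filter P, (∑ j ∈ J, κ j * L j i)
        = ∑ j ∈ J, κ j * ∑ i ∈ (S j).filter P, L j i := by
    intro P
    rw [Finset.sum_comm]
    refine Finset.sum_congr rfl fun j hj => ?_
    rw [← Finset.mul_sum]
    congr 1
    symm
    refine Finset.sum_subset ?_ ?_
    · intro i hi
      rw [Finset.mem_filter] at hi ⊢
      exact ⟨Finset.mem_biUnion.mpr ⟨j, hj, hi.1⟩, hi.2⟩
    · intro i hi hni
      rw [Finset.mem_filter] at hi hni
      exact (hL j).2.2.1 i (fun h => hni ⟨h, hi.2⟩)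
  refine ⟨J.biUnion S, fun i => ∑ j ∈ J, κ j * L j i, ⟨?_, ?_, ?_, ?_⟩, key⟩
  · intro i hi
    obtain ⟨j, _, hij⟩ := Finset.mem_biUnion.mp hi
    exact (hL j).1 i hij
  · intro i
    exact Finset.sum_nonneg fun j _ => mul_nonneg (hκ j) ((hL j).2.1 i)
  · intro i hi
    refine Finset.sum_eq_zero fun j hj => ?_
    rw [(hL j).2.2.1 i (fun h => hi (Finset.mem_biUnion.mpr ⟨j, hj, h⟩)), mul_zero]
  · have h := key (fun _ => True)
    simp only [Finset.filter_true] at h
    rw [h]
    rw [← hsum]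
    refine Finset.sum_congr rfl fun j _ => ?_
    rw [(hL j).2.2.2, mul_one]

lemma mass_le_one {i0 : ℕ} {s : Finset ℕ} {lam : ℕ → ℝ} (h : Conv i0 s lam) (P : ℕ → Prop) :
    ∑ i ∈ s.filter P, lam i ≤ 1 := by
  rw [← h.2.2.2]
  exact Finset.sum_le_sum_of_subset_of_nonneg (Finset.filter_subset _ _) fun i _ _ => h.2.1 i

/-- Successive choice of blocks. -/
lemma blocks (Q : ℕ → Finset ℕ → (ℕ → ℝ) → Prop) (i0 : ℕ)
    (h : ∀ i, ∃ (s : Finset ℕ) (lam : ℕ → ℝ), Conv i s lam ∧ Q i s lam) :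
    ∃ (t : ℕ → ℕ) (S : ℕ → Finset ℕ) (L : ℕ → ℕ → ℝ), StrictMono t ∧ i0 ≤ t 0 ∧
      (∀ j, Conv (t j) (S j) (L j)) ∧ (∀ j, Q (t j) (S j) (L j)) ∧
      ∀ j, ∀ i ∈ S j, i < t (j + 1) := by
  choose S L hC hQ using h
  let t : ℕ → ℕ := fun j => Nat.rec i0 (fun _ u => (S u).sup id + 1 + u) j
  have ht : ∀ j, t (j + 1) = (S (t j)).sup id + 1 + t j := fun j => rfl
  refine ⟨t, fun j => S (t j), fun j => L (t j), ?_, le_refl _, fun j => hC _, fun j => hQ _, ?_⟩
  · refine strictMono_nat_of_lt_succ fun j => ?_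
    rw [ht]; omega
  · intro j i hi
    have : i ≤ (S (t j)).sup id := Finset.le_sup (f := id) hi
    rw [ht]; omega

lemma Gd.union {F G : Set (Set ℕ)} (hF : Gd F) (hG : Gd G) : Gd (F ∪ G) := by
  intro r hr η hη i0
  obtain ⟨t, S, L, ht, ht0, hC, hQ, hS⟩ := blocks
    (fun _ s lam => ∀ B ∈ F, ∑ i ∈ s.filter (hit r B), lam i ≤ η) i0 (fun i => hF r hr η hη i)
  obtain ⟨J, κ, hJ, hκ⟩ := hG (fun j => r (t j)) (hr.comp ht) η hη 0
  have hC' : ∀ j, Conv i0 (S j) (L j) := fun j =>
    ⟨fun i hi => le_trans (le_trans ht0 (ht.monotone (Nat.zero_le j))) ((hC j).1 i hi),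
      (hC j).2⟩
  obtain ⟨s, lam, hs, hm⟩ := mix i0 J κ hJ.2.1 hJ.2.2.2 S L hC'
  refine ⟨s, lam, hs, ?_⟩
  rintro B (hB | hB)
  · rw [hm]
    calc ∑ j ∈ J, κ j * ∑ i ∈ (S j).filter (hit r B), L j i
        ≤ ∑ j ∈ J, κ j * η :=
          Finset.sum_le_sum fun j _ => mul_le_mul_of_nonneg_left (hQ j B hB) (hJ.2.1 j)
      _ = η := by rw [← Finset.sum_mul, hJ.2.2.2, one_mul]
  · rw [hm]
    refine le_trans ?_ (hκ B hB)
    rw [Finset.sum_filter]
    refine Finset.sum_le_sum fun j _ => ?_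
    split_ifs with h
    · calc κ j * ∑ i ∈ (S j).filter (hit r B), L j i ≤ κ j * 1 :=
            mul_le_mul_of_nonneg_left (mass_le_one (hC j) _) (hJ.2.1 j)
        _ = κ j := mul_one _
    · have : (S j).filter (hit r B) = ∅ := by
        rw [Finset.filter_eq_empty_iff]
        rintro i hi ⟨u, hu, h1, h2⟩
        refine h ⟨u, hu, ?_, ?_⟩
        · exact le_trans (hr.monotone ((hC j).1 i hi)) h1
        · exact lt_of_lt_of_le h2 (hr.monotone (hS j i hi))
      rw [this]; simp

lemma Gd.empty : Gd ∅ := by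
  intro r hr η hη i0
  refine ⟨{i0}, fun i => if i = i0 then 1 else 0, ⟨?_, ?_, ?_, ?_⟩, ?_⟩
  · intro i hi; rw [Finset.mem_singleton] at hi; exact hi.ge
  · intro i; positivity
  · intro i hi; rw [Finset.mem_singleton] at hi; exact if_neg hi
  · simp
  · intro B hB; exact absurd hB (Set.notMem_empty B)

lemma Gd.biUnion {C : ℕ → Set (Set ℕ)} (h : ∀ n, Gd (C n)) (M : ℕ) :
    Gd {B | ∃ n < M, B ∈ C n} := by
  induction M with
  | zero =>
    have : {B | ∃ n < 0, B ∈ C n} = (∅ : Set (Set ℕ)) := by ext B; simp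
    rw [this]; exact Gd.empty
  | succ M ih =>
    have : {B | ∃ n < M + 1, B ∈ C n} = {B | ∃ n < M, B ∈ C n} ∪ C M := by
      ext B
      constructor
      · rintro ⟨n, hn, hB⟩
        rcases Nat.lt_succ_iff_lt_or_eq.mp hn with h | h
        · exact Or.inl ⟨n, h, hB⟩
        · subst h; exact Or.inr hB
      · rintro (⟨n, hn, hB⟩ | hB)
        · exact ⟨n, by omega, hB⟩
        · exact ⟨M, by omega, hB⟩
    rw [this]; exact ih.union (h M)

lemma Gd.step {F : Set (Set ℕ)} {C : ℕ → Set (Set ℕ)} (h : ∀ n, Gd (C n))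
    (hF : ∀ B ∈ F, B = ∅ ∨ ∃ n, ∃ B' ∈ C n, B = insert n B' ∧ ∀ u ∈ B', n ≤ u) : Gd F := by
  intro r hr η hη i0
  obtain ⟨t, S, L, ht, ht0, hC, hQ, hS⟩ := blocks
    (fun i s lam => ∀ B, (∃ n < r i, B ∈ C n) → ∑ i ∈ s.filter (hit r B), lam i ≤ η / 2) i0
    (fun i => Gd.biUnion h (r i) r hr (η / 2) (by positivity) i)
  obtain ⟨N, hN⟩ := exists_nat_gt (2 / η)
  have hNpos : (0 : ℝ) < N := lt_trans (by positivity) hN
  have hC' : ∀ j, Conv i0 (S j) (L j) := fun j =>
    ⟨fun i hi => le_trans (le_trans ht0 (ht.monotone (Nat.zero_le j))) ((hC j).1 i hi),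
      (hC j).2⟩
  obtain ⟨s, lam, hs, hm⟩ := mix i0 (Finset.range N) (fun _ => 1 / (N : ℝ))
    (fun _ => by positivity) (by rw [Finset.sum_const, Finset.card_range, nsmul_eq_mul]; field_simp)
    S L hC'
  refine ⟨s, lam, hs, ?_⟩
  intro B hB
  rcases hF B hB with rfl | ⟨n, B', hB', rfl, hn⟩
  · have : s.filter (hit r ∅) = ∅ := by
      rw [Finset.filter_eq_empty_iff]
      rintro i _ ⟨u, hu, _⟩
      exact hu
    rw [this]; simpa using hη.le
  · rw [hm]
    have hb : ∀ j, ∑ i ∈ (S j).filter (hit r (insert n B')), L j i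
        ≤ η / 2 + if r (t j) ≤ n ∧ n < r (t (j + 1)) then 1 else 0 := by
      intro j
      by_cases h1 : n < r (t j)
      · have e : (S j).filter (hit r (insert n B')) = (S j).filter (hit r B') := by
          refine Finset.filter_congr fun i hi => ?_
          constructor
          · rintro ⟨u, hu, h2, h3⟩
            rcases hu with hu | hu
            · exfalso
              have := hr.monotone ((hC j).1 i hi)
              omega
            · exact ⟨u, hu, h2, h3⟩
          · rintro ⟨u, hu, h2, h3⟩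
            exact ⟨u, Or.inr hu, h2, h3⟩
        rw [e]
        have := hQ j B' ⟨n, h1, hB'⟩
        have h0 : (0 : ℝ) ≤ if r (t j) ≤ n ∧ n < r (t (j + 1)) then 1 else 0 := by
          split_ifs <;> norm_num
        linarith
      · by_cases h2 : n < r (t (j + 1))
        · rw [if_pos ⟨by omega, h2⟩]
          have := mass_le_one (hC j) (hit r (insert n B'))
          linarith
        · have e : (S j).filter (hit r (insert n B')) = ∅ := by
            rw [Finset.filter_eq_empty_iff]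
            rintro i hi ⟨u, hu, h3, h4⟩
            have h5 : n ≤ u := by
              rcases hu with hu | hu
              · exact hu.ge
              · exact hn u hu
            have h6 := hr.monotone (hS j i hi)
            have h7 : r (i + 1) ≤ r (t (j + 1)) := h6
            omega
          rw [e, Finset.sum_empty]
          have h0 : (0 : ℝ) ≤ if r (t j) ≤ n ∧ n < r (t (j + 1)) then 1 else 0 := by
            split_ifs <;> norm_num
          linarith
    have hcard : ∑ j ∈ Finset.range N, (if r (t j) ≤ n ∧ n < r (t (j + 1)) then (1 : ℝ) else 0)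
        ≤ 1 := by
      rw [← Finset.sum_filter, Finset.sum_const, nsmul_eq_mul, mul_one]
      have : ((Finset.range N).filter (fun j => r (t j) ≤ n ∧ n < r (t (j + 1)))).card ≤ 1 := by
        rw [Finset.card_le_one]
        intro a ha b hb'
        rw [Finset.mem_filter] at ha hb'
        by_contra hne
        rcases lt_or_gt_of_ne hne with h | h
        · have := (hr.comp ht).monotone (show a + 1 ≤ b from h)
          simp only [Function.comp] at this
          omega
        · have := (hr.comp ht).monotone (show b + 1 ≤ a from h)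
          simp only [Function.comp] at this
          omega
      exact_mod_cast this
    calc ∑ j ∈ Finset.range N, 1 / (N : ℝ) * ∑ i ∈ (S j).filter (hit r (insert n B')), L j i
        ≤ ∑ j ∈ Finset.range N, 1 / (N : ℝ) *
            (η / 2 + if r (t j) ≤ n ∧ n < r (t (j + 1)) then 1 else 0) :=
          Finset.sum_le_sum fun j _ => mul_le_mul_of_nonneg_left (hb j) (by positivity)
      _ = 1 / (N : ℝ) * (N * (η / 2) + ∑ j ∈ Finset.range N,
            (if r (t j) ≤ n ∧ n < r (t (j + 1)) then (1 : ℝ) else 0)) := by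
          rw [← Finset.mul_sum, Finset.sum_add_distrib, Finset.sum_const, Finset.card_range,
            nsmul_eq_mul]
      _ ≤ 1 / (N : ℝ) * (N * (η / 2) + 1) := by
          refine mul_le_mul_of_nonneg_left ?_ (by positivity)
          linarith
      _ = η / 2 + 1 / N := by field_simp
      _ ≤ η := by
          have : 1 / (N : ℝ) ≤ η / 2 := by
            rw [div_le_div_iff₀ hNpos (by norm_num)]
            rw [div_lt_iff₀ hη] at hN
            linarith
          linarith

/-- Recursive construction of a sequence. -/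
lemma rec_seq (P : ℕ → (ℕ → ℕ) → Prop)
    (hP : ∀ (l : ℕ) (a b : ℕ → ℕ), (∀ i < l, a i = b i) → P l a → P l b)
    (h0 : P 0 (fun _ => 0)) (hs : ∀ l V, P l V → ∃ n, P (l + 1) (Function.update V l n)) :
    ∃ a : ℕ → ℕ, ∀ l, P l a := by
  choose! nx hnx using hs
  let g : ℕ → (ℕ → ℕ) := fun l => Nat.rec (fun _ => 0) (fun l V => Function.update V l (nx l V)) l
  have hg : ∀ l, g (l + 1) = Function.update (g l) l (nx l (g l)) := fun l => rfl
  have hPg : ∀ l, P l (g l) := by
    intro l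
    induction l with
    | zero => exact h0
    | succ l ih => rw [hg]; exact hnx l _ ih
  have hst : ∀ l i, i < l → g l i = g (i + 1) i := by
    intro l
    induction l with
    | zero => intro i hi; omega
    | succ l ih =>
      intro i hi
      rcases Nat.lt_succ_iff_lt_or_eq.mp hi with h | h
      · rw [hg, Function.update_of_ne (by omega)]; exact ih i h
      · subst h; rfl
  exact ⟨fun i => g (i + 1) i, fun l => hP l (g l) _ (fun i hi => hst l i hi) (hPg l)⟩

theorem stmtQ : StmtQ := by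
  intro A hdep hinit hinf r hr η hη i0
  -- the families
  let F : ℕ → (ℕ → ℕ) → Set (Set ℕ) := fun l V =>
    {B | ∃ (k : ℕ) (b : ℕ → ℕ), StrictMono b ∧ l ≤ k ∧ A k b ∧ (∀ i < l, b i = V i) ∧
      B = {u | ∃ j, l ≤ j ∧ j < k ∧ b j = u}}
  have hstep : ∀ l V, (∀ n, Gd (F (l + 1) (Function.update V l n))) → Gd (F l V) := by
    intro l V h
    refine Gd.step h ?_
    rintro B ⟨k, b, hb, hlk, hA, hV, rfl⟩
    rcases Nat.eq_or_lt_of_le hlk with h1 | h1
    · left
      ext u
      simp only [Set.mem_ofPred_eq, Set.mem_empty_iff_false, iff_false]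
      rintro ⟨j, h2, h3, _⟩
      omega
    · right
      refine ⟨b l, {u | ∃ j, l + 1 ≤ j ∧ j < k ∧ b j = u}, ⟨k, b, hb, h1, hA, ?_, rfl⟩, ?_, ?_⟩
      · intro i hi
        rcases Nat.lt_succ_iff_lt_or_eq.mp hi with h2 | h2
        · rw [Function.update_of_ne (by omega)]; exact hV i h2
        · subst h2; rw [Function.update_self]
      · ext u
        simp only [Set.mem_ofPred_eq, Set.mem_insert_iff]
        constructor
        · rintro ⟨j, h2, h3, h4⟩
          rcases Nat.eq_or_lt_of_le h2 with h5 | h5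
          · left; subst h5; exact h4.symm
          · right; exact ⟨j, h5, h3, h4⟩
        · rintro (h2 | ⟨j, h2, h3, h4⟩)
          · exact ⟨l, le_refl _, h1, h2.symm⟩
          · exact ⟨j, by omega, h3, h4⟩
      · rintro u ⟨j, h2, _, h4⟩
        rw [← h4]
        exact hb.monotone (by omega)
  have hgood : Gd (F 0 (fun _ => 0)) := by
    by_contra hbad
    have hFeq : ∀ (l : ℕ) (a b : ℕ → ℕ), (∀ i < l, a i = b i) → F l a = F l b := by
      intro l a b hab
      ext B
      constructor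
      · rintro ⟨k, c, h1, h2, h3, h4, h5⟩
        exact ⟨k, c, h1, h2, h3, fun i hi => (h4 i hi).trans (hab i hi), h5⟩
      · rintro ⟨k, c, h1, h2, h3, h4, h5⟩
        exact ⟨k, c, h1, h2, h3, fun i hi => (h4 i hi).trans (hab i hi).symm, h5⟩
    obtain ⟨a, ha⟩ := rec_seq (fun l V => ¬ Gd (F l V))
      (fun l a b hab h => by rw [← hFeq l a b hab]; exact h) hbad
      (fun l V hV => by
        by_contra hc
        push Not at hc
        exact hV (hstep l V hc))
    have hne : ∀ l, ∃ (k : ℕ) (b : ℕ → ℕ), StrictMono b ∧ l ≤ k ∧ A k b ∧ (∀ i < l, b i = a i) := by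
      intro l
      by_contra hc
      apply ha l
      have : F l a = ∅ := by
        ext B
        simp only [Set.mem_empty_iff_false, iff_false]
        rintro ⟨k, b, h1, h2, h3, h4, _⟩
        exact hc ⟨k, b, h1, h2, h3, h4⟩
      rw [this]; exact Gd.empty
    have hdown : ∀ (k : ℕ) (b : ℕ → ℕ) (l : ℕ), l ≤ k → A k b → A l b := by
      intro k b l hlk
      induction k with
      | zero => intro h; have : l = 0 := by omega
                subst this; exact h
      | succ k ih =>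
        intro h
        rcases Nat.eq_or_lt_of_le hlk with h1 | h1
        · subst h1; exact h
        · exact ih (by omega) (hinit k b h)
    refine hinf ⟨a, strictMono_nat_of_lt_succ fun i => ?_, fun l => ?_⟩
    · obtain ⟨k, b, hb, hk, _, hba⟩ := hne (i + 2)
      rw [← hba i (by omega), ← hba (i + 1) (by omega)]
      exact hb (Nat.lt_succ_self i)
    · obtain ⟨k, b, hb, hk, hA, hba⟩ := hne l
      exact hdep l b a hba (hdown k b l hk hA)
  obtain ⟨s, lam, hC, hB⟩ := hgood r hr η hη i0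
  refine ⟨s, lam, hC.1, hC.2.1, hC.2.2.1, hC.2.2.2, ?_⟩
  intro k a ha hA
  have := hB {u | ∃ j, 0 ≤ j ∧ j < k ∧ a j = u} ⟨k, a, ha, Nat.zero_le _, hA, by simp, rfl⟩
  refine le_trans (le_of_eq ?_) this
  refine Finset.sum_congr ?_ fun _ _ => rfl
  refine Finset.filter_congr fun i _ => ?_
  constructor
  · rintro ⟨j, h1, h2, h3⟩
    exact ⟨a j, ⟨j, Nat.zero_le _, h1, rfl⟩, h2, h3⟩
  · rintro ⟨u, ⟨j, _, h1, rfl⟩, h2, h3⟩
    exact ⟨j, h1, h2, h3⟩

end Pool.Agent.Helper72.TK

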